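import Pool.Agent.Lib.MP_a60258_s6.Iface

/-!
# Module FIN (helper82): the final statement for one order
-/

open MvPolynomial Finset

namespace A602.S6.H82

open A602.S6

/-! ### Additivity of the search -/

theorem fB_add (tab : List BL) (key : ℕ) (f g : BL → ℤ) :
    fB 0 tab key (fun b => f b + g b) = fB 0 tab key f + fB 0 tab key g := by
  induction tab with
  | nil => rfl
  | cons b tab ih =>
    change cond (Nat.beq b.key key) (f b + g b) (fB 0 tab key fun b => f b + g b)
      = cond (Nat.beq b.key key) (f b) (fB 0 tab key f)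
        + cond (Nat.beq b.key key) (g b) (fB 0 tab key g)
    cases Nat.beq b.key key
    · exact ih
    · rfl

theorem fS_add (tab : List SE) (key : ℕ) (f g : SE → ℤ) :
    fS 0 tab key (fun b => f b + g b) = fS 0 tab key f + fS 0 tab key g := by
  induction tab with
  | nil => rfl
  | cons b tab ih =>
    change cond (Nat.beq b.code key) (f b + g b) (fS 0 tab key fun b => f b + g b)
      = cond (Nat.beq b.code key) (f b) (fS 0 tab key f)
        + cond (Nat.beq b.code key) (g b) (fS 0 tab key g)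
    cases Nat.beq b.code key
    · exact ih
    · rfl

theorem fT_add (tab : List TE) (key : ℕ) (f g : TE → ℤ) :
    fT 0 tab key (fun b => f b + g b) = fT 0 tab key f + fT 0 tab key g := by
  induction tab with
  | nil => rfl
  | cons b tab ih =>
    change cond (Nat.beq b.code key) (f b + g b) (fT 0 tab key fun b => f b + g b)
      = cond (Nat.beq b.code key) (f b) (fT 0 tab key f)
        + cond (Nat.beq b.code key) (g b) (fT 0 tab key g)
    cases Nat.beq b.code key
    · exact ih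
    · rfl

theorem lkp_add (p : ℕ) (tab : List BL) (x : Pr → ℕ) (f g : BL → SE → TE → ℤ) :
    lkp 0 p tab x (fun bl se te => f bl se te + g bl se te)
      = lkp 0 p tab x f + lkp 0 p tab x g := by
  unfold lkp
  split_ifs
  · simp only [fT_add, fS_add, fB_add]
  · rfl

theorem trm_eq (bl : BL) (se : SE) (te : TE) (x : Pr → ℕ) :
    trm bl se te (yy x 0 0) (yy x 0 1) (yy x 0 2) (yy x 1 0) (yy x 1 1)
      (yy x 1 2) (yy x 2 0) (yy x 2 1) (yy x 2 2)
    = trmK bl se te x + cor te.corr (cy (yy x 0 0) (yy x 0 1) (yy x 0 2) (yy x 1 0) (yy x 1 1)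
        (yy x 1 2) (yy x 2 0) (yy x 2 1) (yy x 2 2)) := by
  unfold trm trmK
  have h : (cond (Nat.beq se.code te.code) 1 2 : ℤ) = if se.code = te.code then 1 else 2 := by
    by_cases h : se.code = te.code
    · rw [if_pos h, h, Nat.beq_refl]; rfl
    · rw [if_neg h]
      have : Nat.beq se.code te.code = false := by
        rw [Bool.eq_false_iff]
        intro h2
        exact h (Nat.eq_of_beq_eq_true h2)
      rw [this]; rfl
  rw [h]
  rfl

theorem Bf_eq (p : ℕ) (tab : List BL) (x : Pr → ℕ) : Bf p tab x = Kf p tab x + Rf p tab x := by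
  unfold Bf Kf Rf
  rw [← lkp_add]
  congr 1
  funext bl se te
  exact trm_eq bl se te x

/-! ### Lf -/

theorem Lf_add {α : Type} [Fintype α] [DecidableEq α] (n : ℕ) (F G : (α → ℕ) → ℝ) :
    Lf n (fun x => F x + G x) = Lf n F + Lf n G := by
  unfold Lf
  rw [← Finset.sum_add_distrib]
  exact Finset.sum_congr rfl fun x _ => by ring

theorem Lf_mul {α : Type} [Fintype α] [DecidableEq α] (n : ℕ) (c : ℝ) (F : (α → ℕ) → ℝ) :
    Lf n (fun x => c * F x) = c * Lf n F := by
  unfold Lf
  rw [Finset.mul_sum]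
  exact Finset.sum_congr rfl fun x _ => by ring

/-! ### Multiplicities are at most `p` -/

theorem le_of_cmp {p : ℕ} {x : Pr → ℕ} (hx : Cmp p x) (e : Pr) : x e ≤ p := by
  rw [← hx (ends e).1]
  unfold deg
  have h : x e = if (ends e).1 = (ends e).1 ∨ (ends e).1 = (ends e).2 then x e else 0 := by
    rw [if_pos (Or.inl rfl)]
  calc x e = _ := h
    _ ≤ _ := Finset.single_le_sum
      (f := fun e' => if (ends e).1 = (ends e').1 ∨ (ends e).1 = (ends e').2 then x e' else 0)
      (fun _ _ => Nat.zero_le _) (Finset.mem_univ e)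

/-- The form of `RfaStatement` with a constant which does not depend on the polynomial. -/
def RfaU : Prop := ∀ (p : ℕ) (tab : List BL) (bn : BL) (sn : SE),
  2 ≤ p → p ≤ 11 → (tab.map fun b => b.key).Nodup → (∀ bl ∈ tab, okB p bl = true) →
  (∀ bl ∈ tab, ddB p (cm (p - 1) 1 0) bl = true) →
  bn ∈ tab → sn ∈ bn.ss → sn.code = cm (p - 1) 1 0 →
  ∃ c : ℝ, 0 < c ∧ ∀ (S : Finset ℕ) (P : R), Cha S p P → c * Vx S P (mir p ![p - 1, 1, 0])
    ≤ Lf (3 * p) fun x : Pr → ℕ => (Rf p tab x : ℝ) * Vx S P x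

theorem fin (h1 : K6fStatement) (h2 : AvgStatement) (h3 : CanStatement) (h4 : EnuStatement)
    (h5 : GamStatement) (h6 : KfaStatement) (h7 : RfaU) (h8 : NckStatement) : FinStatement := by
  intro p N tab bn sn hp hp11 hN hnd hok hdd hbn hsn hcode henum
  obtain ⟨c, hc, hR⟩ := h7 p tab bn sn hp hp11 hnd hok hdd hbn hsn hcode
  obtain ⟨q, rfl⟩ : ∃ q, p = q + 1 := ⟨p - 1, by omega⟩
  have hN' : (0 : ℝ) < N := by exact_mod_cast hN
  refine ⟨c * (q.factorial : ℝ) ^ 3 / N, by positivity, fun S P hP i => ?_⟩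
  have hg : ∀ x, Cmp (q + 1) x → ∑ σ : Equiv.Perm (Fin 6),
      ((N : ℤ) * cc (q + 1) (act σ x) - Bf (q + 1) tab (act σ x)) = 0 := by
    refine h3 (q + 1) (fun x => (N : ℤ) * cc (q + 1) x - Bf (q + 1) tab x) ?_
    intro x hx hmax
    rw [← h5 (q + 1) N tab x fun e => (le_of_cmp hx e).trans (by omega)]
    exact h4 (q + 1) N tab (by omega) hp11 henum x hx hmax
  have hA := h2 S (q + 1) P (fun x => (N : ℤ) * cc (q + 1) x - Bf (q + 1) tab x) hP hg
  have hK := h6 S (q + 1) P tab (by omega) hp11 hP hnd hok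
  have hR' := hR S P hP
  have hk := h1 S (q + 1) P (by omega) hP
  have key : (N : ℝ) * k6 P = Lf (3 * (q + 1)) (fun x : Pr → ℕ => (Kf (q + 1) tab x : ℝ) * Vx S P x)
      + Lf (3 * (q + 1)) (fun x : Pr → ℕ => (Rf (q + 1) tab x : ℝ) * Vx S P x) := by
    rw [hk, ← Lf_mul, ← Lf_add]
    rw [← sub_eq_zero]
    rw [← hA]
    have : ∀ F G : (Pr → ℕ) → ℝ, Lf (3 * (q + 1)) F - Lf (3 * (q + 1)) G
        = Lf (3 * (q + 1)) fun x => F x - G x := by
      intro F G
      unfold Lf
      rw [← Finset.sum_sub_distrib]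
      exact Finset.sum_congr rfl fun x _ => by ring
    rw [this]
    congr 1
    funext x
    rw [Bf_eq]
    push_cast
    ring
  have hn := h8 S q P hP i
  have e1 : (q + 1 - 1) = q := rfl
  rw [e1] at hR'
  have h9 : c * ((q.factorial : ℝ) ^ 3 * E (pderiv i P ^ 2) ^ 3) ≤ N * k6 P := by
    rw [key]
    calc c * ((q.factorial : ℝ) ^ 3 * E (pderiv i P ^ 2) ^ 3)
        ≤ c * Vx S P (mir (q + 1) ![q, 1, 0]) := mul_le_mul_of_nonneg_left hn hc.le
      _ ≤ _ := hR'
      _ ≤ _ := le_add_of_nonneg_left hK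
  rw [div_mul_eq_mul_div, div_le_iff₀ hN']
  calc c * (q.factorial : ℝ) ^ 3 * E (pderiv i P ^ 2) ^ 3
      = c * ((q.factorial : ℝ) ^ 3 * E (pderiv i P ^ 2) ^ 3) := by ring
    _ ≤ N * k6 P := h9
    _ = k6 P * N := mul_comm _ _

end A602.S6.H82
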